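import Pool.Agent.Run7.h621.LA.LogFin

/-!
MP_64ff02_ag, Q1: pairs whose only subvarieties not of log general type are the lines that meet the
boundary in at most two points, and there is at most one of them; properties (i) and (iv), with the
exceptional set.

Let `K` be an algebraically closed field of characteristic `0`, such as the complex numbers, and let
`k` be a field contained in `K`, such as the rational numbers, with algebraic closure `k'` in `K`.
Let `V` be a closed subset of projective space of dimension `n`, defined over `k'`, of dimension at
most `m`. For `a` in a finite set `A` let `H_a` be a form of degree `d_a` over `K`, not `0`. The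
forms are supposed to satisfy at most `s` independent algebraic conditions over `k`: the ratios of
the coefficients of the `H_a` generate a field of transcendence degree at least `N - s` over `k`,
where `N` is the sum of the `binom (d_a + n) n - 1`, the dimension of the space of parameters. So
the point of the space of parameters is not contained in any closed subset over `k` of codimension
more than `s`. The conditions can be of any kind, and nothing is supposed on the singularities.

Let `C` be a subset of `A`, let `X'` be the part of `V` where `H_a = 0` for `a` in `C`, let `D` be
the union of the `H_b = 0` for `b` not in `C`, and `X` the complement of `D` in `X'`. A bad line is a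
line over `K` that is contained in `X'`, not contained in `D`, and meets `D` in at most two points.
So a bad line without `D` is a projective line, an affine line, or a multiplicative group; it is not
of log general type.

Let `q` be `0`, or such that `|A| + 2 q ≤ s`, `|A| + 4 q ≤ s + 3` and `s ≤ N`. Then:

(1) every closed subvariety of `X` of dimension `w > 0` with `2 m + s + 2 ≤ ∑ d_a + |C| + w + q` is
of log general type, or it is a bad line (without `D`);

(2) for each nonconstant map from a smooth projective curve of genus `g` to `X'`, whose image is not
contained in `D`, with `c = ∑ d_a + |C| + q - 2 m - s`, the degree times `c` is at most `2 g - 2`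
plus the number of points that are mapped to `D`, unless the image is a line in `X'`; if `c ≥ 1`,
then the degree is at most `2 g - 2` plus this number, unless the image is a bad line;

(3) the bad lines fill up a subset of dimension at most `s + 2 n + 1 - ∑ d_a - |C|`, and if `C = A`,
so that `D` is empty, of dimension at most `s + 2 n - 1 - ∑ (d_a + 1)`. Precisely, if a point `x` of
`X` over an algebraically closed extension of `K` is on a bad line over this field, then the
transcendence degree over `K` of the field generated by the ratios of its coordinates is at most this
number;

(4) if `2 m + s + 1 ≤ ∑ d_a + |C| + q`, then there is at most one bad line.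

So if `2 m + s + 1 ≤ ∑ d_a + |C| + q` and the dimensions of the components of `X` are at least `2`,
then `X` is of log general type (each of its components) and it is strongly of log general type: the
exceptional set is the bad line (without `D`) or empty, and all closed subvarieties of positive
dimension except for the bad line are of log general type. If the number in (3) is smaller than `1`,
there is no bad line.

For example, let `X = X'` be a hypersurface of degree `d` in projective space of dimension `n`. With
`q = 2` and `s` between `6` and `d - 2 n + 2`, the number in (3) is at most `0`. So for `d ≥ 2 n + 4`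
the hypersurfaces that have a closed subvariety of positive dimension not of general type, or that
are not algebraically hyperbolic, satisfy at least `d - 2 n + 3` independent conditions over `k`. If
`k` is countable they are in a countable union of closed subsets of codimension at least
`d - 2 n + 3`. This is sharp: it is the codimension of the set of the hypersurfaces that contain a
line. The next case is `q = 3`, `s = d - 2 n + 3` at least `10`: now `X` can contain a line, but only
one, and all other subvarieties of positive dimension are of general type. For complements of
hypersurfaces of degree `d`, there is no bad line for `s ≤ d - 2 n - 1`, and at most one for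
`s = d - 2 n - 1 + q`, and all other subvarieties of positive dimension are of log general type.

A closed subvariety of `X` of dimension `w` is given by its function field `L`, or a finite
extension of it, and its generic point `x`, with homogeneous coordinates in `L`. A prime divisor `Q`
over its closure has its centre in `D` if `d_b min_i ord_Q (x_i) < ord_Q (H_b (x))` for some `b` not
in `C`; `pord Q x` is the minimum of the orders `ord_Q (x_i)`. In (2), `L` is the function field of
the curve, `pht K x` is the degree and `canDeg K L` is `2 g - 2`.
-/

set_option autoImplicit false

namespace Pool.Agent.Results.MP_64ff02_ag.ExceptionalLines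

open MvPolynomial FF Pool.Agent.W603.LV Pool.Agent.W603.PV Pool.Agent.W602.GT Pool.Agent.TH145.MG
open Pool.Agent.Run7.h621.LG Pool.Agent.Run7.h621.LA

theorem result {k K : Type} [Field k] [Field K] [IsAlgClosed K] [CharZero K] [Algebra k K]
    {n m s q : ℕ}
    -- a closed subset of projective space, of dimension at most `m`
    (V : Set (MvPolynomial (Fin (n + 1)) (algebraicClosure k K)))
    (hVh : ∀ f ∈ V, ∃ e, f.IsHomogeneous e) (hV : DimLE (algebraicClosure k K) V m)
    -- forms of degrees `d a` that satisfy at most `s` independent conditions over `k`
    {A : Type} [Fintype A] (d : A → ℕ) (H : A → MvPolynomial (Fin (n + 1)) K)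
    (h : ConditionsLE k H d s) (hq : Small n d s q)
    -- the pair
    (C : Finset A) :
    -- closed subvarieties of dimension `w > 0`
    (∀ (L : Type) [Field L] [Algebra K L] (w : ℕ) (x : Fin (n + 1) → L), 0 < w →
      Algebra.trdeg K L = w → x ≠ 0 → Algebra.IsAlgebraic (coords K x) L → OnPairOf V H C x →
      2 * m + s + 2 ≤ ∑ a, d a + C.card + w + q →
      OnBadLine V H C x ∨ LogGeneralType K L w fun Q => Q ∈ bdry C H d x) ∧
    -- curves
    (∀ (L : Type) [Field L] [Algebra K L] [IsFF K L] (x : Fin (n + 1) → L),
      (∃ j l, Transcendental K (x j / x l)) → OnPairOf V H C x →
      (bdry C H d x).Finite ∧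
      (OnLineIn K (eqs V H C) x ∨ ((∑ a, (d a : ℤ)) + C.card + q - 2 * m - s) * pht K x ≤
        canDeg K L + (bdry C H d x).ncard) ∧
      (2 * m + s + 1 ≤ ∑ a, d a + C.card + q →
        OnBadLine V H C x ∨ pht K x ≤ canDeg K L + (bdry C H d x).ncard)) ∧
    -- the union of the bad lines
    (∀ (Ω : Type) [Field Ω] [IsAlgClosed Ω] [Algebra K Ω] (p r x : Fin (n + 1) → Ω) (u v : Ω)
      (w : ℕ), LinearIndependent Ω ![p, r] →
      (∀ a ∈ C, ∀ u v : Ω, aeval (fun i => u * p i + v * r i) (H a) = 0) →
      FewPoints H C p r → (∀ i, x i = u * p i + v * r i) → (∀ b, b ∉ C → aeval x (H b) ≠ 0) →
      (w : Cardinal) ≤ Algebra.trdeg K (coords K x) →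
      ∑ a, d a + C.card + w ≤ s + 2 * n + 1 ∧
        (C = Finset.univ → ∑ a, (d a + 1) + w + 1 ≤ s + 2 * n)) ∧
    -- there is at most one bad line
    (2 * m + s + 1 ≤ ∑ a, d a + C.card + q → ∀ p r p2 r2 : Fin (n + 1) → K,
      BadLine V H C p r → BadLine V H C p2 r2 →
      Submodule.span K (Set.range ![p2, r2]) = Submodule.span K (Set.range ![p, r])) := by
  refine ⟨fun L _ _ w x hw htr hx0 hxL hx hnum => main_sub hVh hV h hq C hw htr hx0 hxL hx hnum,
    fun L _ _ _ x hnc hx => ?_, fun Ω _ _ _ p r x u v w hl hC hfew hx hxD hw => ⟨?_, ?_⟩,
    fun hnum => atMostOne hV h hq C hnum⟩
  · obtain ⟨h1, h2⟩ := curves hVh hV h hq C hnc hx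
    exact ⟨h1, h2, fun hnum => (main_curves hVh hV h hq C hnc hx hnum).2⟩
  · exact through2 h C hl hC hfew hx hxD hw
  · intro hCu
    have : Infinite Ω := IsAlgClosed.instInfinite
    have h1 := through h C hl hC hx hw
    rwa [hCu] at h1

end Pool.Agent.Results.MP_64ff02_ag.ExceptionalLines
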