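import Pool.Agent.Run7.h493.PS.Gen
import Pool.Agent.Run7.h493.PS.Perm

/-!
MP_64ff02_ag, Q1: a big Picard theorem for families of complements of Zariski-general divisors in an
arbitrary projective variety, and for the symmetric powers of these complements.

Let `V` be a closed subset of `ℙ ^ M`, of dimension at most `n`, given by forms over a subfield `k`
of the complex numbers; let `q ≥ n + 2`, and let `d_1, …, d_q` be positive degrees. Let `δ ≥ 1`, and
suppose that
* `δ = 1`, and at most `2 (q - n - 1)` of the degrees are equal to one, or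
* `q ≥ n δ + 2` and `δ (q - 1) < (q - n δ - 1) (d_b + 2 - δ)` for all `b`; for given `n`, `δ` this is
  true for `q = n δ + 2` and `d_b ≥ n δ ^ 2 + 2 δ - 1`.

THEOREM. There is a nonzero polynomial `Φ` with coefficients in `k` in the coefficients of `q` forms
of degrees `d_1, …, d_q`, homogeneous in the coefficients of each form, with the following
properties. We say that `F = (F_1, …, F_q)` is general if `Φ (F) ≠ 0`, and we write
`U_F = V \ {F_1 ⋯ F_q = 0}`.

(1) (big Picard theorem for families) Let `F_z` be a family of `q` forms which depends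
holomorphically on a point `z` of the unit disc, such that `F_z` is general for at least one `z`.
Then every holomorphic section of the family of the symmetric powers `Sym ^ δ (U_{F_z})` over the
punctured disc extends to a holomorphic map from the disc to `Sym ^ δ (ℙ ^ M)`. The divisor `F_0 = 0`
is arbitrary.

(2) If `F` is general, then every holomorphic map from the punctured disc to `Sym ^ δ (U_F)` extends,
and every holomorphic map from the complex plane to `Sym ^ δ (U_F)` is constant.

(3) Let `B` be any subset of a projective space (for example, a quasi-projective variety), and let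
`F_b (y, x)` be polynomials which are homogeneous of degree `d_b` in `x` and homogeneous of degree
`e_b` in the homogeneous coordinates `y` of the points of `B`. Let `X` be the fibre space over `B`
with the fibres `Sym ^ δ (U_{F (y, ·)})`. If the holomorphic maps from the punctured disc to `B` with
image not contained in `{G = 0}` extend to the disc, then the holomorphic maps from the punctured
disc to `X` with image not contained in the closed subset `{G (y) Φ (F (y, ·)) = 0}` extend to the
disc. If the entire curves in `B` are contained in `{G = 0}`, then the entire curves in `X` are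
contained in `{G (y) Φ (F (y, ·)) = 0}`. So `X` is pseudo Picard hyperbolic (pseudo Brody hyperbolic)
if `B` is, and `F (y, ·)` is general for a point `y` of `B` off `{G = 0}`.

For `δ = 1`, `X` is the complement in `B × V` of `q` divisors of the bidegrees `(e_b, d_b)`; it is
smooth if `B` and `V` are smooth. There is no restriction on the dimension of `B` or on `e_b`.

A point of `Sym ^ δ (ℙ ^ M)` is given by its Chow form, the product of the linear forms
`∑ i, x_{l, i} X_i` of its `δ` points `x_l`, up to a factor; this is the usual embedding of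
`Sym ^ δ (ℙ ^ M)` in the projective space of the forms of degree `δ`.

The proof: let `f` be a section over the punctured disc which does not extend. The field `K` is the
algebraic closure of the field of the meromorphic functions on the disc in the field of germs, along
an ultrafilter, at a point of the punctured disc. The products `w_b = ∏_l F_b (f_l)` and the
quotients `w_b ^ {d_c} / w_c ^ {d_b}` are holomorphic and without zeros on the punctured disc, and by
the theorem of Borel on the punctured disc, with meromorphic coefficients, the monomials in these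
quotients which are pairwise not proportional over `K` are linearly independent over `K`. For
algebraically independent coefficients this is impossible, by the theorems of the starting
repository on points over extensions of algebraically closed fields (`Pool.Agent.NH8.GD.stc`,
`Pool.Agent.NH29.GN.stc2`), and so it is impossible for general coefficients, which may be elements
of `K`, by a compactness argument (`Pool.Agent.NH29.GH.stbd`, `Pool.Agent.NH29.GN.stb2`).
-/

set_option autoImplicit false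

namespace Pool.Agent.Results.MP_64ff02_ag.FamiliesOfComplements

open MvPolynomial Metric Set Filter Topology

variable {k : Type} [Field k] {M N n q δ : ℕ}

/-- The punctured unit disc. -/
def PDisc : Set ℂ := ball 0 1 \ {0}

/-- The closed subset of `ℙ ^ M` given by the forms in `V` has dimension at most `n`: there are
`n + 1` linear forms without common zero on it. -/
def DimLE [Algebra k ℂ] (V : Set (MvPolynomial (Fin (M + 1)) k)) (n : ℕ) : Prop :=
  ∃ ℓ : Fin (n + 1) → MvPolynomial (Fin (M + 1)) k, (∀ j, (ℓ j).IsHomogeneous 1) ∧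
    ∀ y : Fin (M + 1) → ℂ, (∀ H ∈ V, aeval y H = 0) → (∀ j, aeval y (ℓ j) = 0) → y = 0

/-- The numerical condition. -/
def Degrees (n δ : ℕ) {q : ℕ} (d : Fin q → ℕ) : Prop :=
  (∀ b, 1 ≤ d b) ∧ n + 2 ≤ q ∧
    (δ = 1 ∧ (Finset.univ.filter fun b => d b = 1).card ≤ 2 * (q - n - 1) ∨
      1 ≤ δ ∧ n * δ + 2 ≤ q ∧ ∀ b, δ * (q - 1) < (q - n * δ - 1) * (d b + 2 - δ))

/-- The indices of the coefficients of `q` forms of degrees `d b` in `M + 1` variables. -/
abbrev Index (M : ℕ) {q : ℕ} (d : Fin q → ℕ) : Type :=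
  (b : Fin q) × {β : Fin (M + 1) →₀ ℕ // β.degree = d b}

/-- `Φ` is homogeneous of degree `m b` in the coefficients of the `b`-th form. -/
def MultiHomogeneous [Algebra k ℂ] {d : Fin q → ℕ} (Φ : MvPolynomial (Index M d) k)
    (m : Fin q → ℕ) : Prop :=
  ∀ (c : Fin q → ℂ) (t : Index M d → ℂ),
    aeval (fun s : Index M d => c s.1 * t s) Φ = (∏ b, c b ^ m b) * aeval t Φ

/-- `F` is a family of forms of degrees `d b`, and `Φ (F) ≠ 0`. -/
def General [Algebra k ℂ] {d : Fin q → ℕ} (Φ : MvPolynomial (Index M d) k)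
    (F : Fin q → MvPolynomial (Fin (M + 1)) ℂ) : Prop :=
  (∀ b, (F b).IsHomogeneous (d b)) ∧ aeval (fun s : Index M d => coeff s.2.1 (F s.1)) Φ ≠ 0

/-- The forms `F z b` of degrees `d b` depend holomorphically on the point `z` of the disc. -/
structure HolForms (d : Fin q → ℕ) (F : ℂ → Fin q → MvPolynomial (Fin (M + 1)) ℂ) : Prop where
  hom : ∀ z ∈ ball (0 : ℂ) 1, ∀ b, (F z b).IsHomogeneous (d b)
  hol : ∀ b α, DifferentiableOn ℂ (fun z => coeff α (F z b)) (ball 0 1)

/-- `z ↦ {f z 1, …, f z δ}` (homogeneous coordinates) is a holomorphic section over `S` of the family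
of the symmetric powers `Sym ^ δ (U_z)`, where `U_z` is the complement of the zeros of the forms
`F z b` (of degrees `d b`) in `V`: the points are in `U_z`, and the functions `∑ l, h (f z l)` are
holomorphic for the functions `h = G / (∏ b, F z b) ^ j`, where `G` is a form of degree
`j * ∑ b, d b`. These functions `h` generate the coordinate ring of the affine variety `U_z`, and the
functions `∑ l, h (x_l)` generate the coordinate ring of `Sym ^ δ (U_z)`. The functions `f · l` need
not be continuous. If `F z = F` does not depend on `z` this is a holomorphic map to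
`Sym ^ δ (U_F)`. -/
structure SymSection [Algebra k ℂ] (V : Set (MvPolynomial (Fin (M + 1)) k)) (d : Fin q → ℕ)
    (F : ℂ → Fin q → MvPolynomial (Fin (M + 1)) ℂ) (S : Set ℂ)
    (f : ℂ → Fin δ → Fin (M + 1) → ℂ) : Prop where
  ne : ∀ z ∈ S, ∀ l, f z l ≠ 0
  onV : ∀ z ∈ S, ∀ l, ∀ H ∈ V, aeval (f z l) H = 0
  off : ∀ z ∈ S, ∀ l b, eval (f z l) (F z b) ≠ 0
  hol : ∀ (j : ℕ) (G : MvPolynomial (Fin (M + 1)) ℂ), G.IsHomogeneous (j * ∑ b, d b) →
    DifferentiableOn ℂ (fun z => ∑ l, eval (f z l) G / (∏ b, eval (f z l) (F z b)) ^ j) S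

/-- The Chow form of the points `x l`. -/
noncomputable def chowForm (x : Fin δ → Fin (M + 1) → ℂ) : MvPolynomial (Fin (M + 1)) ℂ :=
  ∏ l, ∑ i, C (x l i) * X i

/-- The map `z ↦ {f z 1, …, f z δ}` from the punctured disc to `Sym ^ δ (ℙ ^ M)` extends
holomorphically over the origin: in a neighbourhood of the origin there are homogeneous coordinates
of the Chow form (the coefficients of `P z`) which are holomorphic and have no common zero. -/
def ExtendsSym (f : ℂ → Fin δ → Fin (M + 1) → ℂ) : Prop :=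
  ∃ r : ℝ, 0 < r ∧ ∃ P : ℂ → MvPolynomial (Fin (M + 1)) ℂ,
    (∀ α, DifferentiableOn ℂ (fun z => coeff α (P z)) (ball 0 r)) ∧
    (∀ z ∈ ball (0 : ℂ) r, P z ≠ 0) ∧
    ∀ z ∈ ball (0 : ℂ) r \ {0}, ∃ c : ℂ, chowForm (f z) = c • P z

/-- The map `z ↦ {f z 1, …, f z δ}` from the complex plane to `Sym ^ δ (ℙ ^ M)` is constant. -/
def ConstSym (f : ℂ → Fin δ → Fin (M + 1) → ℂ) : Prop :=
  ∀ z w, ∃ s : Equiv.Perm (Fin δ), ∀ l, ∃ c : ℂ, f z l = c • f w (s l)

/-- The map from the punctured disc to the projective space extends to the disc. -/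
def Extends (g : ℂ → Fin (N + 1) → ℂ) : Prop :=
  ∃ h : ℂ → Fin (N + 1) → ℂ, DifferentiableOn ℂ h (ball 0 1) ∧ (∀ z ∈ ball (0 : ℂ) 1, h z ≠ 0) ∧
    ∀ z ∈ PDisc, ∃ c : ℂ, g z = c • h z

/-- The map from the complex plane to the projective space is constant. -/
def Const (g : ℂ → Fin (N + 1) → ℂ) : Prop := ∀ z w, ∃ c : ℂ, g z = c • g w

/-- The polynomials `T b` in the variables `x`, with coefficients which are polynomials in the
variables `y`, are homogeneous of degree `d b` in `x` and of degree `e b` in `y`. -/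
structure Bihomogeneous (d e : Fin q → ℕ)
    (T : Fin q → MvPolynomial (Fin (M + 1)) (MvPolynomial (Fin (N + 1)) ℂ)) : Prop where
  x : ∀ b, (T b).IsHomogeneous (d b)
  y : ∀ b α, (coeff α (T b)).IsHomogeneous (e b)

/-- The forms in `x` at the point `y`. -/
noncomputable def fibre (T : Fin q → MvPolynomial (Fin (M + 1)) (MvPolynomial (Fin (N + 1)) ℂ))
    (y : Fin (N + 1) → ℂ) (b : Fin q) : MvPolynomial (Fin (M + 1)) ℂ := map (eval y) (T b)

section Proof

open Run7.h493.PS
open Pool.Agent.W603.BP (PB mem_disc)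
open Pool.Agent.NH29.GN (Idx Mon fv val NoZero)

theorem PDisc_eq : PDisc = PB 1 := Set.ext fun _ => mem_disc

theorem isOpen_PDisc : IsOpen PDisc := by
  rw [PDisc_eq]
  exact Pool.Agent.W603.BP.PB_open 1

theorem fv_eq {d : Fin q → ℕ} {F : Fin q → MvPolynomial (Fin (M + 1)) ℂ}
    (hF : ∀ b, (F b).IsHomogeneous (d b)) (x : Fin (M + 1) → ℂ) (b : Fin q) :
    fv (K := ℂ) (L := ℂ) (d := d) (fun s : Idx M d => coeff s.2.1 (F s.1)) x b = eval x (F b) := by
  classical
  unfold fv
  rw [eval_eq']
  symm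
  refine Finset.sum_of_injOn (fun α => if h : α.degree = d b then (⟨α, h⟩ : Mon M (d b)) else
    ⟨Finsupp.single 0 (d b), by rw [Finsupp.degree_single]⟩) ?_ ?_ ?_ ?_
  · intro α hα β hβ h
    have h1 : α.degree = d b := by
      by_contra hne
      exact (mem_support_iff.1 hα) ((hF b).coeff_eq_zero hne)
    have h2 : β.degree = d b := by
      by_contra hne
      exact (mem_support_iff.1 hβ) ((hF b).coeff_eq_zero hne)
    simp only [dif_pos h1, dif_pos h2] at h
    exact congrArg Subtype.val h
  · intro α _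
    exact Finset.mem_coe.2 (Finset.mem_univ _)
  · intro β _ hβ
    have h1 : coeff β.1 (F b) = 0 := by
      by_contra hne
      apply hβ
      exact ⟨β.1, Finset.mem_coe.2 (mem_support_iff.2 hne), by simp only [dif_pos β.2]⟩
    show algebraMap ℂ ℂ (coeff β.1 (F b)) * _ = 0
    rw [h1, map_zero, zero_mul]
  · intro α hα
    have h1 : α.degree = d b := by
      by_contra hne
      exact (mem_support_iff.1 hα) ((hF b).coeff_eq_zero hne)
    simp only [dif_pos h1]
    rfl

theorem hol_of [Algebra k ℂ] {V : Set (MvPolynomial (Fin (M + 1)) k)} {d : Fin q → ℕ}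
    {F : ℂ → Fin q → MvPolynomial (Fin (M + 1)) ℂ} {f : ℂ → Fin δ → Fin (M + 1) → ℂ}
    (hF : HolForms d F) (hf : SymSection V d F PDisc f) :
    Hol (fun (s : Idx M d) z => coeff s.2.1 (F z s.1)) f := by
  have hmem : ∀ z ∈ PB 1, z ∈ PDisc ∧ z ∈ ball (0 : ℂ) 1 := fun z hz =>
    ⟨by rw [PDisc_eq]; exact hz, PB_sub_ball hz⟩
  refine ⟨fun s => ?_, fun z hz l => hf.ne z (hmem z hz).1 l, fun z hz l b => ?_,
    fun j α hα => ?_⟩
  · exact (hF.hol s.1 s.2.1).analyticOnNhd isOpen_ball
  · rw [fv_eq (hF.hom z (hmem z hz).2)]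
    exact hf.off z (hmem z hz).1 l b
  · have h1 := hf.hol j (monomial α 1) (isHomogeneous_monomial _ hα)
    have h2 : AnalyticOnNhd ℂ (fun z => ∑ l, eval (f z l) (monomial α (1 : ℂ)) /
        (∏ b, eval (f z l) (F z b)) ^ j) (PB 1) := by
      rw [← PDisc_eq]
      exact h1.analyticOnNhd isOpen_PDisc
    intro z hz
    refine (h2 z hz).congr ?_
    filter_upwards [(Pool.Agent.W603.BP.PB_open 1).mem_nhds hz] with y hy
    refine Finset.sum_congr rfl fun l _ => ?_
    have h3 : eval (f y l) (monomial α (1 : ℂ)) = val (f y l) α := by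
      rw [eval_monomial, one_mul, Finsupp.prod_fintype]
      · rfl
      · intro i; exact pow_zero _
    have h4 : ∏ b, eval (f y l) (F y b) = Dl (fun (s : Idx M d) z => coeff s.2.1 (F z s.1)) f y l := by
      unfold Dl
      exact Finset.prod_congr rfl fun b _ => (fv_eq (hF.hom y (hmem y hy).2) _ b).symm
    rw [h3, h4]

theorem exists_phi [Algebra k ℂ] {V : Set (MvPolynomial (Fin (M + 1)) k)}
    (hV : ∀ H ∈ V, ∃ e, H.IsHomogeneous e) (hn : DimLE V n) {d : Fin q → ℕ} (hd : Degrees n δ d) :
    ∃ (Φ : MvPolynomial (Idx M d) k) (m : Fin q → ℕ), Φ ≠ 0 ∧ MultiHom Φ m ∧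
      NoBad k M q δ V d Φ := by
  have hk : CharZero k := (algebraMap k ℂ).charZero
  obtain ⟨ℓ, hℓ, hℓ0⟩ := hn
  have hN : NoZero V ℓ := Pool.Agent.NH29.GN.Fn.noZero_of_points (K := ℂ) hℓ0
  obtain ⟨h1, h2, h3⟩ := hd
  rcases h3 with ⟨rfl, h3⟩ | ⟨-, h3, h4⟩
  · rcases Nat.eq_zero_or_pos q with rfl | hq
    · omega
    have hC : (∅ : Finset (Fin q)) ≠ Finset.univ := by
      intro h
      have h5 : (⟨0, hq⟩ : Fin q) ∈ (∅ : Finset (Fin q)) := by
        rw [h]
        exact Finset.mem_univ _
      simp at h5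
    obtain ⟨Φ, hΦ, hB⟩ := exists_noBad_one k hV hℓ hN h1 (by omega)
      (Pool.Agent.NH29.GN.Fn.num_of_few h1 h2 (by omega) ∅ hC)
    exact exists_multiHom hΦ hB
  · obtain ⟨Φ, hΦ, hB⟩ := exists_noBad k hV hℓ hN h1 h3 h4
    exact exists_multiHom hΦ hB

theorem one_le_sum {d : Fin q → ℕ} (hd : Degrees n δ d) : 1 ≤ ∑ b, d b := by
  obtain ⟨h1, h2, -⟩ := hd
  have h3 := Finset.card_nsmul_le_sum Finset.univ d 1 fun b _ => h1 b
  rw [Finset.card_univ, Fintype.card_fin, smul_eq_mul, mul_one] at h3
  exact le_trans (by omega) h3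

/-- the big Picard theorem for families -/
theorem picard_family [Algebra k ℂ] {V : Set (MvPolynomial (Fin (M + 1)) k)} {d : Fin q → ℕ}
    (hd : Degrees n δ d) {Φ : MvPolynomial (Idx M d) k} (hΦ : NoBad k M q δ V d Φ)
    {F : ℂ → Fin q → MvPolynomial (Fin (M + 1)) ℂ} (hF : HolForms d F)
    (hgen : ∃ z ∈ ball (0 : ℂ) 1, General Φ (F z)) {f : ℂ → Fin δ → Fin (M + 1) → ℂ}
    (hf : SymSection V d F PDisc f) : ExtendsSym f := by
  have h1 := hol_of hF hf
  obtain ⟨z, hz, -, hz0⟩ := hgen
  exact extChow (cst_of hΦ h1 (fun w hw l H hH => hf.onV w (by rw [PDisc_eq]; exact hw) l H hH)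
    ⟨z, hz, hz0⟩) h1 (one_le_sum hd)

theorem frequently_sin (w : ℂ) : ∃ᶠ z in 𝓝[≠] (0 : ℂ), Complex.sin z⁻¹ = w := by
  obtain ⟨a, ha⟩ := Complex.sin_surjective w
  have h1 : Tendsto (fun j : ℕ => ((a + j * (2 * Real.pi))⁻¹ : ℂ)) atTop (𝓝[≠] 0) := by
    have h2 : Tendsto (fun j : ℕ => (a + j * (2 * Real.pi) : ℂ)) atTop (Bornology.cobounded ℂ) := by
      rw [← tendsto_norm_atTop_iff_cobounded]
      have h3 : Tendsto (fun j : ℕ => (j : ℝ) * (2 * Real.pi) - ‖a‖) atTop atTop :=
        tendsto_atTop_add_const_right _ _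
          (tendsto_natCast_atTop_atTop.atTop_mul_const (by positivity))
      refine tendsto_atTop_mono (fun j => ?_) h3
      have h4 : ‖((j : ℂ) * (2 * Real.pi))‖ = j * (2 * Real.pi) := by
        rw [norm_mul, norm_mul, Complex.norm_natCast, Complex.norm_ofNat, Complex.norm_real,
          Real.norm_of_nonneg Real.pi_pos.le]
      have h5 := norm_sub_le (a + (j : ℂ) * (2 * Real.pi)) a
      rw [add_sub_cancel_left, h4] at h5
      linarith
    exact tendsto_inv₀_cobounded'.comp h2
  refine h1.frequently (Frequently.of_forall fun j => ?_)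
  rw [inv_inv, Complex.sin_add_nat_mul_two_pi, ha]

/-- Picard implies Brody -/
theorem const_of_extends {f : ℂ → Fin δ → Fin (M + 1) → ℂ} (hne : ∀ z l, f z l ≠ 0)
    (h : ExtendsSym fun z => f (Complex.sin z⁻¹)) : ConstSym f := by
  obtain ⟨r, hr, P, hP1, hP2, hP3⟩ := h
  have key : ∀ w, ∃ c : ℂ, c ≠ 0 ∧ chow (f w) = c • P 0 := by
    intro w
    have h1 : ∃ᶠ z in 𝓝[≠] (0 : ℂ), ∃ c : ℂ, chow (f w) = c • P z := by
      have h2 : ∀ᶠ z in 𝓝[≠] (0 : ℂ), z ∈ ball (0 : ℂ) r \ {0} := by
        filter_upwards [nhdsWithin_le_nhds (ball_mem_nhds (0 : ℂ) hr), self_mem_nhdsWithin]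
          with z h3 h4
        exact ⟨h3, h4⟩
      refine ((frequently_sin w).and_eventually h2).mono fun z hz => ?_
      obtain ⟨c, hc⟩ := hP3 z hz.2
      refine ⟨c, ?_⟩
      rw [← hz.1]
      exact hc
    have hcont : ∀ α, Tendsto (fun z => coeff α (P z)) (𝓝[≠] 0) (𝓝 (coeff α (P 0))) := fun α =>
      (((hP1 α).differentiableAt (ball_mem_nhds (0 : ℂ) hr)).continuousAt.tendsto).mono_left
        nhdsWithin_le_nhds
    have h3 : ∀ α β, coeff α (chow (f w)) * coeff β (P 0) = coeff β (chow (f w)) * coeff α (P 0) := by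
      intro α β
      have t1 := (hcont β).const_mul (coeff α (chow (f w)))
      have t2 := (hcont α).const_mul (coeff β (chow (f w)))
      have t3 := t1.sub t2
      by_contra hne
      have h4 : coeff α (chow (f w)) * coeff β (P 0) - coeff β (chow (f w)) * coeff α (P 0) ≠ 0 :=
        sub_ne_zero.2 hne
      obtain ⟨z, ⟨c, hc⟩, hz⟩ := (h1.and_eventually (t3.eventually_ne h4)).exists
      apply hz
      rw [hc, coeff_smul, coeff_smul, smul_eq_mul, smul_eq_mul]
      ring
    obtain ⟨β, hβ⟩ := exists_coeff_ne_zero (hP2 0 (mem_ball_self hr))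
    refine ⟨coeff β (chow (f w)) / coeff β (P 0), ?_, ?_⟩
    · intro h0
      apply chow_ne (hne w)
      ext α
      have h4 := h3 α β
      rw [div_eq_zero_iff] at h0
      rw [h0.resolve_right hβ, zero_mul] at h4
      rw [coeff_zero]
      exact (mul_eq_zero.1 h4).resolve_right hβ
    · ext α
      rw [coeff_smul, smul_eq_mul, div_mul_eq_mul_div, eq_div_iff hβ]
      exact h3 α β
  intro z w
  obtain ⟨c, hc, hz⟩ := key z
  obtain ⟨c', hc', hw⟩ := key w
  refine perm_of_chow (hne z) (hne w) (c := c * c'⁻¹) ?_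
  rw [hz, hw, smul_smul, mul_assoc, inv_mul_cancel₀ hc', mul_one]

theorem holForms_const {d : Fin q → ℕ} {F : Fin q → MvPolynomial (Fin (M + 1)) ℂ}
    (hF : ∀ b, (F b).IsHomogeneous (d b)) : HolForms d fun _ => F :=
  ⟨fun _ _ b => hF b, fun _ _ => differentiableOn_const _⟩

theorem section_sin [Algebra k ℂ] {V : Set (MvPolynomial (Fin (M + 1)) k)} {d : Fin q → ℕ}
    {F : Fin q → MvPolynomial (Fin (M + 1)) ℂ} {f : ℂ → Fin δ → Fin (M + 1) → ℂ}
    (hf : SymSection V d (fun _ => F) univ f) :
    SymSection V d (fun _ => F) PDisc fun z => f (Complex.sin z⁻¹) := by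
  refine ⟨fun z _ => hf.ne _ (mem_univ _), fun z _ => hf.onV _ (mem_univ _),
    fun z _ => hf.off _ (mem_univ _), fun j G hG => ?_⟩
  have h1 := hf.hol j G hG
  rw [differentiableOn_univ] at h1
  have h2 : DifferentiableOn ℂ (fun z : ℂ => Complex.sin z⁻¹) PDisc := by
    intro z hz
    have hz0 : z ≠ 0 := hz.2
    exact (Complex.differentiable_sin.differentiableAt.comp z
      (differentiableAt_inv hz0)).differentiableWithinAt
  exact h1.comp_differentiableOn h2

theorem eval_smul' {P : MvPolynomial (Fin (N + 1)) ℂ} {e : ℕ} (hP : P.IsHomogeneous e) (c : ℂ)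
    (y : Fin (N + 1) → ℂ) : eval (c • y) P = c ^ e * eval y P := by
  rw [eval_eq', eval_eq', Finset.mul_sum]
  refine Finset.sum_congr rfl fun α hα => ?_
  have h1 : α.degree = e := by
    by_contra hne
    exact (mem_support_iff.1 hα) (hP.coeff_eq_zero hne)
  have h2 : ∏ i, (c • y) i ^ α i = c ^ e * ∏ i, y i ^ α i := by
    simp only [Pi.smul_apply, smul_eq_mul, mul_pow]
    rw [Finset.prod_mul_distrib, Finset.prod_pow_eq_pow_sum, ← h1, Finsupp.degree_eq_sum]
  rw [h2]
  ring

theorem fibre_hom {d e : Fin q → ℕ}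
    {T : Fin q → MvPolynomial (Fin (M + 1)) (MvPolynomial (Fin (N + 1)) ℂ)}
    (hT : Bihomogeneous d e T) (y : Fin (N + 1) → ℂ) (b : Fin q) :
    (fibre T y b).IsHomogeneous (d b) := (hT.x b).map _

theorem fibre_smul {d e : Fin q → ℕ}
    {T : Fin q → MvPolynomial (Fin (M + 1)) (MvPolynomial (Fin (N + 1)) ℂ)}
    (hT : Bihomogeneous d e T) (c : ℂ) (y : Fin (N + 1) → ℂ) (b : Fin q) :
    fibre T (c • y) b = C (c ^ e b) * fibre T y b := by
  ext α
  unfold fibre
  rw [coeff_map, coeff_C_mul, coeff_map, eval_smul' (hT.y b α)]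

theorem scale_section [Algebra k ℂ] {V : Set (MvPolynomial (Fin (M + 1)) k)} {d e : Fin q → ℕ}
    {F F' : ℂ → Fin q → MvPolynomial (Fin (M + 1)) ℂ} {S : Set ℂ}
    {f : ℂ → Fin δ → Fin (M + 1) → ℂ} (hf : SymSection V d F S f) {c : ℂ → ℂ}
    (hc : DifferentiableOn ℂ c S) (hc0 : ∀ z ∈ S, c z ≠ 0)
    (h : ∀ z ∈ S, ∀ b, F z b = C (c z ^ e b) * F' z b) : SymSection V d F' S f := by
  have h1 : ∀ z ∈ S, ∀ (x : Fin (M + 1) → ℂ) b, eval x (F z b) = c z ^ e b * eval x (F' z b) := by
    intro z hz x b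
    rw [h z hz, map_mul, eval_C]
  refine ⟨hf.ne, hf.onV, fun z hz l b h0 => hf.off z hz l b ?_, fun j G hG => ?_⟩
  · rw [h1 z hz, h0, mul_zero]
  · refine ((hc.pow (j * ∑ b, e b)).mul (hf.hol j G hG)).congr fun z hz => ?_
    simp only [Pi.mul_apply, Pi.pow_apply]
    rw [Finset.mul_sum]
    refine Finset.sum_congr rfl fun l _ => ?_
    rw [Finset.prod_congr rfl fun b _ => h1 z hz (f z l) b, Finset.prod_mul_distrib,
      Finset.prod_pow_eq_pow_sum, mul_pow, ← pow_mul, mul_comm (∑ b, e b) j]
    have h2 : c z ^ (j * ∑ b, e b) ≠ 0 := pow_ne_zero _ (hc0 z hz)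
    rw [← mul_div_assoc, mul_div_mul_left _ _ h2]

theorem diff_eval {S : Set ℂ} {h : ℂ → Fin (N + 1) → ℂ} (hh : DifferentiableOn ℂ h S)
    (P : MvPolynomial (Fin (N + 1)) ℂ) : DifferentiableOn ℂ (fun z => eval (h z) P) S := by
  induction P using MvPolynomial.induction_on with
  | C a => simp only [eval_C]; exact differentiableOn_const _
  | add P Q hP hQ => simp only [map_add]; exact hP.fun_add hQ
  | mul_X P i hP =>
    simp only [map_mul, eval_X]
    exact hP.fun_mul (differentiableOn_pi.1 hh i)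

theorem general_scale [Algebra k ℂ] {d e : Fin q → ℕ} {Φ : MvPolynomial (Idx M d) k} {m : Fin q → ℕ}
    (hm : MultiHomogeneous (d := d) Φ m)
    {T : Fin q → MvPolynomial (Fin (M + 1)) (MvPolynomial (Fin (N + 1)) ℂ)}
    (hT : Bihomogeneous d e T) {c : ℂ} {y : Fin (N + 1) → ℂ}
    (h : General (d := d) Φ (fibre T (c • y))) : General (d := d) Φ (fibre T y) := by
  refine ⟨fibre_hom hT y, fun h0 => h.2 ?_⟩
  have h1 : (fun s : Index M d => coeff s.2.1 (fibre T (c • y) s.1)) =
      fun s : Index M d => c ^ e s.1 * coeff s.2.1 (fibre T y s.1) := by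
    funext s
    rw [fibre_smul hT, coeff_C_mul]
  rw [h1, hm (fun b => c ^ e b), h0, mul_zero]

/-- the total space, punctured discs -/
theorem total_picard [Algebra k ℂ] {V : Set (MvPolynomial (Fin (M + 1)) k)} {d e : Fin q → ℕ}
    (hd : Degrees n δ d) {Φ : MvPolynomial (Idx M d) k} {m : Fin q → ℕ}
    (hm : MultiHomogeneous (d := d) Φ m) (hΦ : NoBad k M q δ V d Φ)
    {T : Fin q → MvPolynomial (Fin (M + 1)) (MvPolynomial (Fin (N + 1)) ℂ)}
    (hT : Bihomogeneous d e T) {g : ℂ → Fin (N + 1) → ℂ} (hg : DifferentiableOn ℂ g PDisc)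
    (hg0 : ∀ z ∈ PDisc, g z ≠ 0) (hex : Extends g) {f : ℂ → Fin δ → Fin (M + 1) → ℂ}
    (hf : SymSection V d (fun z => fibre T (g z)) PDisc f)
    (hgen : ∃ z ∈ PDisc, General (d := d) Φ (fibre T (g z))) : ExtendsSym f := by
  classical
  obtain ⟨h, hh, hh0, hgh⟩ := hex
  have hsub : ∀ z ∈ PDisc, z ∈ ball (0 : ℂ) 1 := fun z hz => hz.1
  choose! c hc using hgh
  have hc0 : ∀ z ∈ PDisc, c z ≠ 0 := by
    intro z hz h0
    apply hg0 z hz
    rw [hc z hz, h0, zero_smul]
  have hcd : DifferentiableOn ℂ c PDisc := by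
    intro z hz
    obtain ⟨i, hi⟩ := Function.ne_iff.1 (hh0 z (hsub z hz))
    have hi' : h z i ≠ 0 := hi
    have h1 : DifferentiableAt ℂ (fun w => g w i) z :=
      (differentiableOn_pi.1 hg i).differentiableAt (isOpen_PDisc.mem_nhds hz)
    have h2 : DifferentiableAt ℂ (fun w => h w i) z :=
      (differentiableOn_pi.1 hh i).differentiableAt (isOpen_ball.mem_nhds (hsub z hz))
    have h3 : DifferentiableAt ℂ (fun w => g w i / h w i) z := h1.fun_div h2 hi'
    refine (h3.congr_of_eventuallyEq ?_).differentiableWithinAt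
    filter_upwards [isOpen_PDisc.mem_nhds hz, h2.continuousAt.eventually_ne hi'] with w hw1 hw2
    rw [eq_div_iff hw2]
    have h4 := congrFun (hc w hw1) i
    rw [h4]
    rfl
  have hF : HolForms d fun z => fibre T (h z) := by
    refine ⟨fun z _ b => fibre_hom hT _ b, fun b α => ?_⟩
    have h1 := diff_eval hh (coeff α (T b))
    refine h1.congr fun z _ => ?_
    unfold fibre
    rw [coeff_map]
  have hf' : SymSection V d (fun z => fibre T (h z)) PDisc f := by
    refine scale_section (e := e) hf hcd hc0 fun z hz b => ?_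
    rw [← fibre_smul hT, ← hc z hz]
  obtain ⟨z, hz, hz0⟩ := hgen
  refine picard_family hd hΦ hF ⟨z, hsub z hz, ?_⟩ hf'
  rw [hc z hz] at hz0
  exact general_scale hm hT hz0

/-- the fibres -/
theorem brody_const [Algebra k ℂ] {V : Set (MvPolynomial (Fin (M + 1)) k)} {d : Fin q → ℕ}
    (hd : Degrees n δ d) {Φ : MvPolynomial (Idx M d) k} (hΦ : NoBad k M q δ V d Φ)
    {F : Fin q → MvPolynomial (Fin (M + 1)) ℂ} (hF : General (d := d) Φ F)
    {f : ℂ → Fin δ → Fin (M + 1) → ℂ} (hf : SymSection V d (fun _ => F) univ f) : ConstSym f :=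
  const_of_extends (fun z l => hf.ne z (mem_univ z) l)
    (picard_family hd hΦ (holForms_const hF.1) ⟨0, mem_ball_self one_pos, hF⟩ (section_sin hf))

/-- the total space, entire curves -/
theorem total_brody [Algebra k ℂ] {V : Set (MvPolynomial (Fin (M + 1)) k)} {d e : Fin q → ℕ}
    (hd : Degrees n δ d) {Φ : MvPolynomial (Idx M d) k} (hΦ : NoBad k M q δ V d Φ)
    {T : Fin q → MvPolynomial (Fin (M + 1)) (MvPolynomial (Fin (N + 1)) ℂ)}
    (hT : Bihomogeneous d e T) {g : ℂ → Fin (N + 1) → ℂ} (hg : Differentiable ℂ g)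
    (hg0 : ∀ z, g z ≠ 0) (hcst : Const g) {f : ℂ → Fin δ → Fin (M + 1) → ℂ}
    (hf : SymSection V d (fun z => fibre T (g z)) univ f)
    (hgen : ∃ z, General (d := d) Φ (fibre T (g z))) : ConstSym f := by
  classical
  obtain ⟨z₀, hz₀⟩ := hgen
  choose c hc using fun z => hcst z z₀
  have hc0 : ∀ z, c z ≠ 0 := by
    intro z h0
    apply hg0 z
    rw [hc z, h0, zero_smul]
  have hcd : Differentiable ℂ c := by
    obtain ⟨i, hi⟩ := Function.ne_iff.1 (hg0 z₀)
    have hi' : g z₀ i ≠ 0 := hi
    have h1 : Differentiable ℂ (fun w => g w i / g z₀ i) := (differentiable_pi.1 hg i).div_const _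
    have h2 : c = fun w => g w i / g z₀ i := by
      funext w
      rw [eq_div_iff hi']
      have h4 := congrFun (hc w) i
      rw [h4]
      rfl
    rw [h2]
    exact h1
  have hf' : SymSection V d (fun _ => fibre T (g z₀)) univ f := by
    refine scale_section (e := e) hf hcd.differentiableOn (fun z _ => hc0 z) fun z _ b => ?_
    rw [← fibre_smul hT, ← hc z]
  exact brody_const hd hΦ hz₀ hf'

end Proof

/-- Let `V` be a closed subset of `ℙ ^ M` of dimension at most `n`, given by forms over a field `k`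
contained in the complex numbers, and let `n`, `δ`, `d_1, …, d_q` satisfy the numerical condition.
There is a nonzero polynomial `Φ`, homogeneous in the coefficients of each form, such that:

(1) holomorphic sections over the punctured disc of a family `Sym ^ δ (U_z)`, where `U_z` is the
complement of the zeros of `F z 1, …, F z q` in `V`, extend over the origin, if `Φ (F z) ≠ 0` for at
least one point `z` of the disc;

(2) if `Φ (F) ≠ 0` then all holomorphic maps from the punctured disc to `Sym ^ δ (U_F)` extend, and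
all holomorphic maps from the complex plane to `Sym ^ δ (U_F)` are constant;

(3) let `X` be the fibre space over a subset `B` of `ℙ ^ N` with the fibres `Sym ^ δ (U_y)`, where
`U_y` is the complement of the zeros of the forms `T b (y, x)` in `V`. If all holomorphic maps from
the punctured disc to `B`, with image not contained in `{G = 0}`, extend to the disc, then all
holomorphic maps `(g, f)` from the punctured disc to `X`, with image not contained in the set
`{G (y) Φ (T (y, ·)) = 0}`, extend;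

(4) if all holomorphic maps from the complex plane to `B`, with image not contained in `{G = 0}`, are
constant, then all holomorphic maps `(g, f)` from the complex plane to `X`, with image not contained
in the set `{G (y) Φ (T (y, ·)) = 0}`, are constant. -/
theorem result [Algebra k ℂ] (V : Set (MvPolynomial (Fin (M + 1)) k))
    (hV : ∀ H ∈ V, ∃ e, H.IsHomogeneous e) (hn : DimLE V n) (d : Fin q → ℕ) (hd : Degrees n δ d) :
    ∃ (Φ : MvPolynomial (Index M d) k) (m : Fin q → ℕ), Φ ≠ 0 ∧ MultiHomogeneous Φ m ∧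
      -- (1)
      (∀ F : ℂ → Fin q → MvPolynomial (Fin (M + 1)) ℂ, HolForms d F →
        (∃ z ∈ ball (0 : ℂ) 1, General Φ (F z)) →
        ∀ f : ℂ → Fin δ → Fin (M + 1) → ℂ, SymSection V d F PDisc f → ExtendsSym f) ∧
      -- (2)
      (∀ F : Fin q → MvPolynomial (Fin (M + 1)) ℂ, General Φ F →
        (∀ f : ℂ → Fin δ → Fin (M + 1) → ℂ, SymSection V d (fun _ => F) PDisc f → ExtendsSym f) ∧
        ∀ f : ℂ → Fin δ → Fin (M + 1) → ℂ, SymSection V d (fun _ => F) univ f → ConstSym f) ∧
      ∀ (N : ℕ) (B : Set (Fin (N + 1) → ℂ)), (∀ y ∈ B, y ≠ 0) →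
        ∀ (e : Fin q → ℕ) (T : Fin q → MvPolynomial (Fin (M + 1)) (MvPolynomial (Fin (N + 1)) ℂ)),
        Bihomogeneous d e T → ∀ G : MvPolynomial (Fin (N + 1)) ℂ,
        -- (3)
        ((∀ g, DifferentiableOn ℂ g PDisc → (∀ z ∈ PDisc, g z ∈ B) →
            (∃ z ∈ PDisc, eval (g z) G ≠ 0) → Extends g) →
          ∀ (g : ℂ → Fin (N + 1) → ℂ) (f : ℂ → Fin δ → Fin (M + 1) → ℂ),
            DifferentiableOn ℂ g PDisc → (∀ z ∈ PDisc, g z ∈ B) →
            SymSection V d (fun z => fibre T (g z)) PDisc f →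
            (∃ z ∈ PDisc, eval (g z) G ≠ 0 ∧ General Φ (fibre T (g z))) →
            Extends g ∧ ExtendsSym f) ∧
        -- (4)
        ((∀ g, Differentiable ℂ g → (∀ z, g z ∈ B) → (∃ z, eval (g z) G ≠ 0) → Const g) →
          ∀ (g : ℂ → Fin (N + 1) → ℂ) (f : ℂ → Fin δ → Fin (M + 1) → ℂ),
            Differentiable ℂ g → (∀ z, g z ∈ B) →
            SymSection V d (fun z => fibre T (g z)) univ f →
            (∃ z, eval (g z) G ≠ 0 ∧ General Φ (fibre T (g z))) → Const g ∧ ConstSym f) := by
  obtain ⟨Φ, m, hΦ0, hm, hΦ⟩ := exists_phi hV hn hd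
  have hm' : MultiHomogeneous (d := d) Φ m := fun c t => hm.scale c t
  refine ⟨Φ, m, hΦ0, hm', fun F hF hgen f hf => picard_family hd hΦ hF hgen hf, fun F hF =>
    ⟨fun f hf => picard_family hd hΦ (holForms_const hF.1) ⟨0, mem_ball_self one_pos, hF⟩ hf,
      fun f hf => brody_const hd hΦ hF hf⟩, fun N B hB e T hT G => ⟨fun hpic g f hg hgB hf hgen => ?_,
      fun hbr g f hg hgB hf hgen => ?_⟩⟩
  · obtain ⟨z, hz, h1, h2⟩ := hgen
    have h3 := hpic g hg hgB ⟨z, hz, h1⟩
    exact ⟨h3, total_picard hd hm' hΦ hT hg (fun z hz => hB _ (hgB z hz)) h3 hf ⟨z, hz, h2⟩⟩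
  · obtain ⟨z, h1, h2⟩ := hgen
    have h3 := hbr g hg hgB ⟨z, h1⟩
    exact ⟨h3, total_brody hd hΦ hT hg (fun z => hB _ (hgB z)) h3 hf ⟨z, h2⟩⟩

end Pool.Agent.Results.MP_64ff02_ag.FamiliesOfComplements
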