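import Pool.Agent.Run7.h177.GS.Hyp
import Pool.Agent.Run7.h418.E.Thm

/-!
# The generalized Green–Griffiths–Lang conjecture for projective varieties whose symmetric
# differentials generate a symmetric power of the cotangent sheaf

`X = {F = 0}` is a complex projective variety (or scheme), of any dimension, possibly singular, such
that finitely many regular symmetric differentials `σ j` of one degree `m > 0` generate `Sᵐ Ω` on `X`
(`SymForm`, `Generates`, `Pool/Agent/Run7/h418`). For example `X` is smooth and `Sᵐ Ω` is generated by
global sections; and closed subvarieties of such an `X` inherit the property. For `m = 1` these are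
the varieties with a finite map to an abelian variety which is an immersion.

Let `V` be a closed subvariety of `X` of positive dimension, with generic point `y` (`SubVar`).

* (i) `GeneralType`: `V` is of general type;
* (ii) `PseudoPicard`: the holomorphic maps from the punctured disc to `V` which do not extend to the
  disc have their images in one proper closed subset of `V`;
* (iii) `PseudoBrody`: the same for all nonconstant holomorphic maps from the complex plane;
* (iv) `StronglyGeneral` (`Pool/Agent/R869/WMordDefs.lean`): all closed subvarieties of `V` of positive
  dimension not contained in one proper closed subset of `V` are of general type;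
* `PseudoBounded`: (iii) for the maps of bounded derivative; `PseudoTorus`: (iii) for the maps from
  complex tori.

Theorem.

1. (i), (iii), (iv), `PseudoTorus` and `PseudoBounded` are equivalent; (ii) implies them.
2. `E.SpEnt X = SpAlg X`: the Zariski closure of the union of the images of all nonconstant holomorphic
   maps from the plane to `X` is the Zariski closure of the union of the closed subvarieties of positive
   dimension of `X` which are not of general type (one exceptional set for (iii) and (iv)).
3. With the empty exceptional set (ii), (iii) and (iv) are equivalent: all holomorphic maps from the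
   punctured disc to `X` extend if and only if all holomorphic maps from the plane to `X` are constant,
   if and only if all closed subvarieties of `X` of positive dimension are of general type.

So only the implication from (i) to (ii) with nonempty exceptional set is missing for these varieties.

The theorem rests on the theorems of helper418 on entire curves and on tori in such varieties
(`Pool/Agent/Run7/h418`; the theorem on all entire curves, `Pool/Agent/Run7/h418/E`, was finished by
helper418 with pieces by helper177, helper711, helper83, helper847, helper712, helper283, helper576 and
helper941).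
-/

set_option autoImplicit false

open Pool.Agent.W602.GT Pool.Agent.N155 Run7.h418 Run7.h177.GS
open Pool.Agent.R869.Wd (StronglyGeneral)

namespace Pool.Agent.Results.MP_64ff02_ag.GeneratedDifferentials

/-- **The generalized Green–Griffiths–Lang conjecture for varieties with a generated symmetric power
of the cotangent sheaf.** -/
theorem result {n m : ℕ} {ι κ : Type} [Fintype κ] {F : ι → MvPolynomial (Fin (n + 1)) ℂ}
    (hF : ∀ i, IsForm (F i)) (hm : 0 < m)
    {σ : κ → (Fin (n + 1) → ℂ) → (Fin (n + 1) → ℂ) → ℂ} (hσ : ∀ j, SymForm F m (σ j))
    (hgen : Generates F m σ) :
    (∀ (K : Type) [Field K] [Algebra ℂ K] (w : ℕ) (y : Fin (n + 1) → K), 0 < w →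
      SubVar F K w y →
        [GeneralType ℂ K w, PseudoBrody y, StronglyGeneral ℂ y, PseudoTorus y,
          PseudoBounded y].TFAE ∧ (PseudoPicard y → GeneralType ℂ K w)) ∧
      E.SpEnt F = SpAlg F ∧
      [PicardHyperbolic F, BrodyHyperbolic F, AllSubGeneral F].TFAE := by
  refine ⟨fun K _ _ w y hw hy => ⟨?_, fun h => (E.thm_iff hF hm hσ hgen hw hy).2
    (pseudoBrody_of_picard h)⟩, E.spEnt_alg hF hm hσ hgen, ?_⟩
  · tfae_have 1 ↔ 2 := E.thm_iff hF hm hσ hgen hw hy
    tfae_have 1 ↔ 3 := strongly_iff hF hm hσ hgen hw hy
    tfae_have 1 ↔ 4 := U.general_iff_torus hF hm hσ hgen hw hy
    tfae_have 1 ↔ 5 := U.general_iff_bounded hF hm hσ hgen hw hy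
    tfae_finish
  · tfae_have 1 ↔ 2 := (brody_iff_picard hF).symm
    tfae_have 2 ↔ 3 := R.brody_iff hF hm hσ hgen
    tfae_finish

end Pool.Agent.Results.MP_64ff02_ag.GeneratedDifferentials
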