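import Pool.Agent.Run7.h34.UG.Var

/-!
MP_64ff02_ag, Q1: quasi-projective varieties with a morphism to projective space which is highly
ramified over the coordinate hyperplanes; the required order of ramification depends only on the
dimension of the projective space and on the degrees of equations of the image.

`RamifiedOff X D (Crd n) m` (`Pool/Agent/TH152/HY/QDefs.lean`, `Crd n`: the `n + 1` coordinate
hyperplanes of `P^n`): the projection from `X - D` to `P^n` (`X`, `D` closed in `P^N × P^n`) is
ramified to order at least `m` over the coordinate hyperplanes (which is no condition on the arcs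
which meet no hyperplane, e.g. if `D` contains the preimage of the hyperplanes). `Special F B x`,
`OnGroup`, `Deg`, `Four` (`Pool/Agent/Run7/h34/UG/Main.lean`), `Over`, `PPicard`, `PBrody`,
`SLogGT` (`Var.lean`). `SubVarU Set.univ F K w y`, `IsComponentU Set.univ F y`, `Acts`,
`LogGeneralType ℂ K w (OffU Set.univ y)` (`Pool/Agent/W602/GT/PsDefs.lean`, `KStm.lean`,
`Defs.lean`): the closed subvarieties of the part `U` of `{F = 0}` in the torus, given by the
generic point `y`; those which are irreducible components of `U`; diagonal one-parameter groups;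
log general type of the subvariety of the torus.
-/

set_option autoImplicit false

namespace Pool.Agent.Results.MP_64ff02_ag.OrbifoldGGL

open MvPolynomial Metric Pool.Agent.W602.Cov Pool.Agent.W602.Cov.R Pool.Agent.W602.GT
  Pool.Agent.TH152.HY Pool.Agent.W603.BP Run7.h34.UG

/-- For all `n`, `d` there are `m`, `B` such that for every system `F` of forms of degree at most
`d` in `n + 1` variables:

(1) Let `X`, `D` be closed in `P^N × P^n` such that the projection from `X - D` to `P^n` is ramified
to order at least `m` over the coordinate hyperplanes. Then, over the points of `{F = 0}` which are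
not special, holomorphic maps from the punctured disc and from the complex plane to `X - D` extend
in `P^n`, and are constant in `P^n`; closed subvarieties of `X - D` of positive dimension which are
generically finite over their image are of log general type. If `X` is irreducible and generically
finite over its image, and its image lies in `{F = 0}` and not in the special locus, then `X - D`
is of log general type, pseudo Picard hyperbolic, pseudo Brody hyperbolic and strongly of log
general type.

(2) Let `V` be an irreducible component of the part of `{F = 0}` in the torus. Then `V` is of log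
general type if and only if no diagonal one-parameter group acts on `V`, if and only if all
quasi-projective varieties which are generically finite over the closure of `V`, with dense image,
and ramified to order at least `m` over the coordinate hyperplanes, are of log general type;
respectively pseudo Picard hyperbolic; pseudo Brody hyperbolic; strongly of log general type. -/
theorem result (n d : ℕ) : ∃ m B : ℕ, ∀ (ι : Type) (F : ι → MvPolynomial (Fin (n + 1)) ℂ),
    Deg d F →
    (∀ (N : ℕ) (X D : BiSet N n), RamifiedOff X D (Crd n) m →
      (∀ u v, QDisc X D u v → (∀ z ∈ ball (0 : ℂ) 1 \ {0}, ∀ e, eval (v z) (F e) = 0) →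
        Extends v ∨ ∀ z ∈ ball (0 : ℂ) 1 \ {0}, Special F B (v z)) ∧
      (∀ u v, QEntire X D u v → (∀ z e, eval (v z) (F e) = 0) →
        (∀ z z', ∃ t : ℂ, v z' = t • v z) ∨ ∀ z, Special F B (v z)) ∧
      (∀ (L : Type) [Field L] [Algebra ℂ L] (a : Fin (N + 1) → L) (b : Fin (n + 1) → L) (r : ℕ),
        X.Mem a b → ¬ D.Mem a b → (∀ e, aeval b (F e) = 0) → Algebra.trdeg ℂ L = r → 0 < r →
        Algebra.IsAlgebraic
          (IntermediateField.adjoin ℂ {f : L | ∃ i j, b j ≠ 0 ∧ f = b i / b j}) L →
        LogGeneralType ℂ L r (CentreIn D a b) ∨ Special F B b) ∧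
      ∀ (K : Type) [Field K] [Algebra ℂ K] (a : Fin (N + 1) → K) (b : Fin (n + 1) → K) (r : ℕ),
        X.FunctionField K a b → ¬ D.Mem a b → (∀ e, aeval b (F e) = 0) →
        Algebra.trdeg ℂ K = r → 0 < r → Algebra.IsAlgebraic
          (IntermediateField.adjoin ℂ {f : K | ∃ i j, b j ≠ 0 ∧ f = b i / b j}) K →
        ¬ Special F B b → Four X D K a b r) ∧
    ∀ (K : Type) [Field K] [Algebra ℂ K] (y : Fin (n + 1) → K) (w : ℕ), 1 ≤ w →
      SubVarU Set.univ F K w y → IsComponentU Set.univ F y →
      [LogGeneralType ℂ K w (OffU Set.univ y),
        ∀ b : Fin (n + 1) → ℤ, Acts Set.univ ℂ y b → ∀ i j, b i = b j,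
        ∀ (N : ℕ) (X D : BiSet N n) (K' : Type) [Field K'] [Algebra ℂ K'] (a : Fin (N + 1) → K')
          (b : Fin (n + 1) → K') (r : ℕ), Over y m X D K' a b r →
          LogGeneralType ℂ K' r (CentreIn D a b),
        ∀ (N : ℕ) (X D : BiSet N n) (K' : Type) [Field K'] [Algebra ℂ K'] (a : Fin (N + 1) → K')
          (b : Fin (n + 1) → K') (r : ℕ), Over y m X D K' a b r → PPicard X D,
        ∀ (N : ℕ) (X D : BiSet N n) (K' : Type) [Field K'] [Algebra ℂ K'] (a : Fin (N + 1) → K')
          (b : Fin (n + 1) → K') (r : ℕ), Over y m X D K' a b r → PBrody X D,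
        ∀ (N : ℕ) (X D : BiSet N n) (K' : Type) [Field K'] [Algebra ℂ K'] (a : Fin (N + 1) → K')
          (b : Fin (n + 1) → K') (r : ℕ), Over y m X D K' a b r → SLogGT X D].TFAE := by
  refine ⟨mm n d, Run7.h34.OK.BB n d, fun ι F hF => ⟨fun N X D hram => ⟨?_, ?_, ?_, ?_⟩, ?_⟩⟩
  · intro u v huv hV
    by_cases hE : Extends v
    · exact Or.inl hE
    · exact Or.inr (disc_special hF hram huv hV hE)
  · intro u v huv hV
    by_cases hne : ∃ z z', ∀ t : ℂ, v z' ≠ t • v z
    · exact Or.inr fun z => entire_special hF hram huv.diffu huv.diffv huv.mem hV hne z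
    · push Not at hne
      exact Or.inl hne
  · intro L _ _ a b r hmem _ hFb htr hr halg
    by_cases hS : Special F (Run7.h34.OK.BB n d) b
    · exact Or.inr hS
    · exact Or.inl (sub_lgt hF hram hmem hFb hr htr halg hS)
  · intro K _ _ a b r hK hD hFb htr hr halg hS
    exact four hF hram hK hFb halg htr hr hS hD
  · intro K _ _ y w hw hy hc
    exact tfae hF hw hy hc

end Pool.Agent.Results.MP_64ff02_ag.OrbifoldGGL
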